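import Pool.Agent.Helper66.HB.Generic

/-!
# The heavy-ball method: cycles or a uniform exponential rate

For the class `F_{μ,L}` of the `L`-smooth and `μ`-strongly convex functions on `ℝ^d`, `d ≥ 1`
arbitrary, and an arbitrary real tuning `(γ, β)` the theorem proves:

* outside the region `|β| < 1, 0 < γ, γ L < 2 (1 + β)` the method does not converge;
* inside this region the method converges on `F_{μ,L}` at an exponential rate which is uniform
  over the class, the starting points and the dimension if and only if it has no cycle on some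
  strictly larger class `F_{μ',L'}`, `0 < μ' < μ`, `L < L'`;
* for every fixed tuning and Lebesgue almost all `(μ, L)` with `0 < μ < L`: the method converges
  on `F_{μ,L}` exactly when the tuning lies in the above region and admits no cycle on `F_{μ,L}`,
  and then the rate is exponential and uniform. In particular a tuning in the set `B` (neither
  a Lyapunov sequence nor a cycle) converges exactly when it lies in the above region.

The definitions of the class, the method, convergence and cycles are in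
`Pool.Agent.Helper66.HB.Defs`.
-/

namespace Pool.Agent.Results.MP_979a03_an.CycleDichotomy

open Pool.Agent.Helper66.HB MeasureTheory

/-- The Lyapunov region: there are constants such that the function `V` built from two
consecutive iterates satisfies `f(x_{t+1}) - f_* ≤ V_{t+1} ≤ V_t` for all `f` in the class and all
sequences of the method. Here `V t` is the value built from `x_t` and `x_{t+1}`. -/
def HasLyapunov (μ L γ β : ℝ) : Prop :=
  ∃ (a₁ a₂ : ℝ) (c : Fin 4 → Fin 4 → ℝ), ∀ (d : ℕ), 1 ≤ d →
    ∀ f : EuclideanSpace ℝ (Fin d) → ℝ, InClass μ L f → ∀ xs, (∀ y, f xs ≤ f y) →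
      ∀ x : ℕ → EuclideanSpace ℝ (Fin d), IsHB γ β f x →
        ∀ V : ℕ → ℝ, (∀ t, V t = a₁ * (f (x (t + 1)) - f xs) + a₂ * (f (x t) - f xs) +
          ∑ i, ∑ j, if i ≤ j then c i j * inner ℝ
            ((![x t - xs, gradient f (x t), x (t + 1) - xs, gradient f (x (t + 1))] :
              Fin 4 → EuclideanSpace ℝ (Fin d)) i)
            ((![x t - xs, gradient f (x t), x (t + 1) - xs, gradient f (x (t + 1))] :
              Fin 4 → EuclideanSpace ℝ (Fin d)) j) else 0) →
          ∀ t, f (x (t + 2)) - f xs ≤ V (t + 1) ∧ V (t + 1) ≤ V t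

/-- The set `B` of tunings which are neither in the Lyapunov region nor in the cycle region. -/
def InB (μ L γ β : ℝ) : Prop := ¬ HasLyapunov μ L γ β ∧ ¬ HasCycle μ L γ β

/-- The tunings for which the method converges on the quadratic functions of the class. -/
def Admissible (L γ β : ℝ) : Prop := |β| < 1 ∧ 0 < γ ∧ γ * L < 2 * (1 + β)

theorem result :
    (∀ μ L γ β : ℝ, 0 < μ → μ < L →
      (¬ Admissible L γ β → ¬ Converges μ L γ β) ∧
      (Admissible L γ β → (ConvergesUniformly μ L γ β ↔
        ∃ μ' L' : ℝ, 0 < μ' ∧ μ' < μ ∧ L < L' ∧ ¬ HasCycle μ' L' γ β)) ∧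
      (ConvergesUniformly μ L γ β → Converges μ L γ β)) ∧
    (∀ γ β : ℝ, ∀ᵐ p : ℝ × ℝ, 0 < p.1 → p.1 < p.2 →
      (Converges p.1 p.2 γ β ↔ Admissible p.2 γ β ∧ ¬ HasCycle p.1 p.2 γ β) ∧
      (Converges p.1 p.2 γ β ↔ ConvergesUniformly p.1 p.2 γ β) ∧
      (InB p.1 p.2 γ β → (Converges p.1 p.2 γ β ↔ Admissible p.2 γ β))) := by
  have main : ∀ μ L γ β : ℝ, 0 < μ → μ < L →
      (¬ Admissible L γ β → ¬ Converges μ L γ β) ∧
      (Admissible L γ β → (ConvergesUniformly μ L γ β ↔
        ∃ μ' L' : ℝ, 0 < μ' ∧ μ' < μ ∧ L < L' ∧ ¬ HasCycle μ' L' γ β)) ∧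
      (ConvergesUniformly μ L γ β → Converges μ L γ β) := by
    intro μ L γ β hμ hL
    refine ⟨fun h => diverges hμ hL h, ?_, fun h => h.converges⟩
    rintro ⟨h1, h2, h3⟩
    constructor
    · intro h
      refine no_cycle_of_uniform hμ hL ?_ h
      rw [← sq_abs]
      nlinarith [abs_nonneg β]
    · rintro ⟨μ', L', h4, h5, h6, h7⟩
      exact uniform_of_no_cycle h4 h5 hL h6 h1 h2 h3 h7
  refine ⟨main, ?_⟩
  intro γ β
  filter_upwards [ae_threshold γ β] with p hp h1 h2
  obtain ⟨m1, m2, m3⟩ := main p.1 p.2 γ β h1 h2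
  have key : Admissible p.2 γ β → ¬ HasCycle p.1 p.2 γ β → ConvergesUniformly p.1 p.2 γ β :=
    fun ha hc => (m2 ha).2 (hp h1 h2 hc)
  have k1 : Converges p.1 p.2 γ β → Admissible p.2 γ β ∧ ¬ HasCycle p.1 p.2 γ β := by
    intro hc
    refine ⟨?_, fun hcy => hcy.not_converges hc⟩
    by_contra h
    exact m1 h hc
  refine ⟨⟨k1, fun h => m3 (key h.1 h.2)⟩, ⟨fun h => key (k1 h).1 (k1 h).2, m3⟩, ?_⟩
  intro hB
  exact ⟨fun h => (k1 h).1, fun h => m3 (key h hB.2)⟩

end Pool.Agent.Results.MP_979a03_an.CycleDichotomy
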